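import Mathlib

set_option autoImplicit false
set_option linter.unusedSectionVars false

open Complex Metric Set Filter Topology Asymptotics

namespace Pool.Agent.J4.H73.SG

/-- the polynomial `1 + u₁ w + … + u₅ w⁵` -/
def pol (u1 u2 u3 u4 u5 w : ℂ) : ℂ :=
  1 + u1 * w + u2 * w ^ 2 + u3 * w ^ 3 + u4 * w ^ 4 + u5 * w ^ 5

/-- `f = 1 + u₁ w + … + u₅ w⁵ + O(w⁶)` as `w → 0`, `w ≠ 0` -/
def Ex (f : ℂ → ℂ) (u1 u2 u3 u4 u5 : ℂ) : Prop :=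
  (fun w => f w - pol u1 u2 u3 u4 u5 w) =O[𝓝[≠] 0] (fun w : ℂ => w ^ 6)

/-- the remainder of the inversion -/
def rho (u1 u2 u3 u4 u5 w : ℂ) : ℂ :=
  (u4 + (-u1) * u3 + (u1 ^ 2 - u2) * u2 + (-u1 ^ 3 + 2 * u1 * u2 - u3) * u1) +
  (u5 + (-u1) * u4 + (u1 ^ 2 - u2) * u3 + (-u1 ^ 3 + 2 * u1 * u2 - u3) * u2) * w +
  ((-u1) * u5 + (u1 ^ 2 - u2) * u4 + (-u1 ^ 3 + 2 * u1 * u2 - u3) * u3) * w ^ 2 +
  ((u1 ^ 2 - u2) * u5 + (-u1 ^ 3 + 2 * u1 * u2 - u3) * u4) * w ^ 3 +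
  ((-u1 ^ 3 + 2 * u1 * u2 - u3) * u5) * w ^ 4

/-- the inverse polynomial -/
def ipol (u1 u2 u3 w : ℂ) : ℂ :=
  1 + (-u1) * w + (u1 ^ 2 - u2) * w ^ 2 + (-u1 ^ 3 + 2 * u1 * u2 - u3) * w ^ 3

lemma pol_ipol (u1 u2 u3 u4 u5 w : ℂ) :
    pol u1 u2 u3 u4 u5 w * ipol u1 u2 u3 w = 1 + w ^ 4 * rho u1 u2 u3 u4 u5 w := by
  unfold pol ipol rho
  ring

lemma pol_tend (u1 u2 u3 u4 u5 : ℂ) :
    Tendsto (pol u1 u2 u3 u4 u5) (𝓝[≠] 0) (𝓝 1) := by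
  have h : Continuous (pol u1 u2 u3 u4 u5) := by unfold pol; fun_prop
  have h1 := h.tendsto 0
  have h2 : pol u1 u2 u3 u4 u5 0 = 1 := by simp [pol]
  rw [h2] at h1
  exact h1.mono_left nhdsWithin_le_nhds

theorem stage {U V : ℂ → ℂ} {k X Y u1 u2 u3 u4 u5 v1 v2 v3 v4 v5 : ℂ}
    (hU : Tendsto U (𝓝[≠] 0) (𝓝 1)) (hV : Tendsto V (𝓝[≠] 0) (𝓝 1))
    (hrel : ∀ᶠ w in 𝓝[≠] 0, V w ^ 2 * U w + k ^ 2 * Y ^ 2 * w ^ 2 * U w =
      U w ^ 2 * V w + k ^ 2 * X ^ 2 * w ^ 2 * V w + 2 * k * (X - Y) * w * U w * V w)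
    (hE : Ex U u1 u2 u3 u4 u5)
    (h1 : v1 = u1 + 2 * k * (X - Y))
    (h2 : v2 = u2 + k ^ 2 * (X ^ 2 - Y ^ 2))
    (h3 : v3 = u3 + k ^ 2 * (X ^ 2 * (-u1) - Y ^ 2 * (-v1)))
    (h4 : v4 = u4 + k ^ 2 * (X ^ 2 * (u1 ^ 2 - u2) - Y ^ 2 * (v1 ^ 2 - v2)))
    (h5 : v5 = u5 + k ^ 2 * (X ^ 2 * (-u1 ^ 3 + 2 * u1 * u2 - u3) -
      Y ^ 2 * (-v1 ^ 3 + 2 * v1 * v2 - v3))) :
    Ex V v1 v2 v3 v4 v5 := by
  set P := pol u1 u2 u3 u4 u5 with hP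
  set Q := pol v1 v2 v3 v4 v5 with hQ
  let B : ℂ → ℂ := fun w => (V w + Q w) * U w - U w ^ 2 - k ^ 2 * X ^ 2 * w ^ 2 -
    2 * k * (X - Y) * w * U w
  let C : ℂ → ℂ := fun w => Q w ^ 2 + k ^ 2 * Y ^ 2 * w ^ 2 - (U w + P w) * Q w -
    2 * k * (X - Y) * w * Q w
  let D : ℂ → ℂ := fun w => k ^ 2 * (X ^ 2 * Q w * rho u1 u2 u3 u4 u5 w -
    Y ^ 2 * P w * rho v1 v2 v3 v4 v5 w)
  have hPt : Tendsto P (𝓝[≠] 0) (𝓝 1) := pol_tend _ _ _ _ _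
  have hQt : Tendsto Q (𝓝[≠] 0) (𝓝 1) := pol_tend _ _ _ _ _
  have hw : Tendsto (fun w : ℂ => w) (𝓝[≠] 0) (𝓝 0) := tendsto_id.mono_left nhdsWithin_le_nhds
  have hB : Tendsto B (𝓝[≠] 0) (𝓝 1) := by
    have h : Tendsto B (𝓝[≠] 0) (𝓝 ((1 + 1) * 1 - 1 ^ 2 - k ^ 2 * X ^ 2 * 0 ^ 2 -
        2 * k * (X - Y) * 0 * 1)) :=
      ((((hV.add hQt).mul hU).sub (hU.pow 2)).sub ((hw.pow 2).const_mul _)).sub
        ((hw.const_mul _).mul hU)
    have e : ((1 + 1) * 1 - 1 ^ 2 - k ^ 2 * X ^ 2 * 0 ^ 2 - 2 * k * (X - Y) * 0 * 1 : ℂ) = 1 := by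
      ring
    rwa [e] at h
  have hC : C =O[𝓝[≠] 0] (fun _ => (1 : ℂ)) := by
    have h : Tendsto C (𝓝[≠] 0) (𝓝 (1 ^ 2 + k ^ 2 * Y ^ 2 * 0 ^ 2 - (1 + 1) * 1 -
        2 * k * (X - Y) * 0 * 1)) :=
      (((hQt.pow 2).add ((hw.pow 2).const_mul _)).sub ((hU.add hPt).mul hQt)).sub
        ((hw.const_mul _).mul hQt)
    exact h.isBigO_one ℂ
  have hD : D =O[𝓝[≠] 0] (fun _ => (1 : ℂ)) := by
    have h : Continuous D := by
      simp only [D, hP, hQ]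
      unfold pol rho
      fun_prop
    exact ((h.tendsto 0).mono_left nhdsWithin_le_nhds).isBigO_one ℂ
  have key : ∀ᶠ w in 𝓝[≠] 0, (V w - Q w) * B w = -((U w - P w) * C w) - w ^ 6 * D w := by
    filter_upwards [hrel] with w hrel
    have e1 : Q w - P w = 2 * k * (X - Y) * w + k ^ 2 * w ^ 2 * (X ^ 2 * ipol u1 u2 u3 w -
        Y ^ 2 * ipol v1 v2 v3 w) := by
      simp only [hP, hQ]
      unfold pol ipol
      linear_combination w * h1 + w ^ 2 * h2 + w ^ 3 * h3 + w ^ 4 * h4 + w ^ 5 * h5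
    have e2 := pol_ipol u1 u2 u3 u4 u5 w
    have e3 := pol_ipol v1 v2 v3 v4 v5 w
    rw [← hP] at e2
    rw [← hQ] at e3
    have e4 : (Q w ^ 2 * P w + k ^ 2 * Y ^ 2 * w ^ 2 * P w) - (P w ^ 2 * Q w +
        k ^ 2 * X ^ 2 * w ^ 2 * Q w + 2 * k * (X - Y) * w * P w * Q w) = w ^ 6 * D w := by
      simp only [D]
      linear_combination (P w * Q w) * e1 + (k ^ 2 * w ^ 2 * X ^ 2 * Q w) * e2 -
        (k ^ 2 * w ^ 2 * Y ^ 2 * P w) * e3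
    simp only [B, C]
    linear_combination hrel - e4
  have hR : (fun w => (V w - Q w) * B w) =O[𝓝[≠] 0] (fun w : ℂ => w ^ 6) := by
    have h6 : (fun w => -((U w - P w) * C w) - w ^ 6 * D w) =O[𝓝[≠] 0] (fun w : ℂ => w ^ 6) := by
      refine IsBigO.sub (IsBigO.neg_left ?_) ?_
      · have := hE.mul hC
        simpa using this
      · have := (isBigO_refl (fun w : ℂ => w ^ 6) (𝓝[≠] 0)).mul hD
        simpa using this
    exact h6.congr' (key.mono fun w h => h.symm) (Eventually.of_forall fun _ => rfl)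
  have hBi : (fun w => (B w)⁻¹) =O[𝓝[≠] 0] (fun _ => (1 : ℂ)) :=
    (hB.inv₀ one_ne_zero).isBigO_one ℂ
  have hfin := hR.mul hBi
  unfold Ex
  have hne : ∀ᶠ w in 𝓝[≠] 0, B w ≠ 0 := hB.eventually_ne one_ne_zero
  refine (hfin.congr' ?_ ?_)
  · filter_upwards [hne] with w hw0
    rw [mul_assoc, mul_inv_cancel₀ hw0, mul_one]
  · exact Eventually.of_forall fun w => by simp

/-- uniqueness of asymptotic expansions -/
theorem exp_unique (n : ℕ) : ∀ (d : ℕ → ℂ),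
    (fun w : ℂ => ∑ j ∈ Finset.range n, d j * w ^ j) =O[𝓝[≠] 0] (fun w : ℂ => w ^ n) →
    ∀ j < n, d j = 0 := by
  induction n with
  | zero => intro d _ j hj; omega
  | succ n ih =>
    intro d h
    have hw : Tendsto (fun w : ℂ => w ^ (n + 1)) (𝓝[≠] 0) (𝓝 0) := by
      have h1 : Continuous fun w : ℂ => w ^ (n + 1) := by fun_prop
      have h2 := h1.tendsto 0
      simp only [ne_eq, Nat.add_eq_zero_iff, one_ne_zero, and_false, not_false_eq_true,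
        zero_pow] at h2
      exact h2.mono_left nhdsWithin_le_nhds
    have h0 : d 0 = 0 := by
      have h1 : Tendsto (fun w : ℂ => ∑ j ∈ Finset.range (n + 1), d j * w ^ j) (𝓝[≠] 0) (𝓝 0) :=
        h.trans_tendsto hw
      have h2 : Continuous fun w : ℂ => ∑ j ∈ Finset.range (n + 1), d j * w ^ j := by fun_prop
      have h3 := (h2.tendsto 0).mono_left (nhdsWithin_le_nhds (s := {0}ᶜ))
      have h4 := tendsto_nhds_unique h3 h1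
      rw [Finset.sum_range_succ'] at h4
      simpa using h4
    have h5 : ∀ j < n, d (j + 1) = 0 := by
      apply ih fun j => d (j + 1)
      have h6 : (fun w : ℂ => w⁻¹ * ∑ j ∈ Finset.range (n + 1), d j * w ^ j) =O[𝓝[≠] 0]
          (fun w : ℂ => w⁻¹ * w ^ (n + 1)) := (isBigO_refl _ _).mul h
      refine h6.congr' ?_ ?_
      · filter_upwards [self_mem_nhdsWithin] with w hw0
        have hw0' : w ≠ 0 := hw0
        rw [Finset.sum_range_succ', h0, zero_mul, add_zero, Finset.mul_sum]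
        refine Finset.sum_congr rfl fun j _ => ?_
        rw [pow_succ]
        field_simp
      · filter_upwards [self_mem_nhdsWithin] with w hw0
        have hw0' : w ≠ 0 := hw0
        rw [pow_succ]
        field_simp
    intro j hj
    rcases j with _ | j
    · exact h0
    · exact h5 j (by omega)

end Pool.Agent.J4.H73.SG
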