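import Mathlib

set_option autoImplicit false
set_option linter.unusedSectionVars false

open Complex Metric Set Filter Topology
open scoped ComplexConjugate

namespace Pool.Agent.J4.H73.SG

/-- the square root with positive real part, on the slit plane -/
noncomputable def sr (w : ℂ) : ℂ := exp (log w / 2)

lemma sr_sq {w : ℂ} (hw : w ≠ 0) : sr w ^ 2 = w := by
  unfold sr
  rw [sq, ← exp_add, add_halves, exp_log hw]

lemma sr_re {w : ℂ} (hw : w ∈ slitPlane) : 0 < (sr w).re := by
  unfold sr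
  rw [exp_re]
  refine mul_pos (Real.exp_pos _) ?_
  have h1 : (log w / 2).im = w.arg / 2 := by
    rw [div_ofNat_im, log_im]
  rw [h1]
  have h2 : w.arg ≠ Real.pi := (mem_slitPlane_iff_arg.1 hw).1
  have h3 := arg_le_pi w
  have h4 := neg_pi_lt_arg w
  have h5 : w.arg < Real.pi := lt_of_le_of_ne h3 h2
  exact Real.cos_pos_of_mem_Ioo ⟨by linarith, by linarith⟩

lemma sr_diff {w : ℂ} (hw : w ∈ slitPlane) : DifferentiableAt ℂ sr w := by
  unfold sr
  exact ((differentiableAt_log hw).div_const 2).cexp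

lemma sr_one : sr 1 = 1 := by simp [sr]

/-- the Moebius map of the disc onto the right half plane -/
noncomputable def mob (u : ℂ) : ℂ := (1 - u) / (1 + u)

lemma one_add_ne {u : ℂ} (hu : ‖u‖ < 1) : 1 + u ≠ 0 := by
  intro h
  have : u = -1 := by linear_combination h
  rw [this, norm_neg, norm_one] at hu
  exact lt_irrefl _ hu

lemma one_add_ne' {s : ℂ} (hs : 0 < s.re) : 1 + s ≠ 0 := by
  intro h
  have h1 := congrArg Complex.re h
  simp at h1
  linarith

lemma mob_re {u : ℂ} (hu : ‖u‖ < 1) : 0 < (mob u).re := by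
  have h0 := one_add_ne hu
  unfold mob
  rw [div_re, ← add_div]
  refine div_pos ?_ (normSq_pos.2 h0)
  have h1 : normSq u < 1 := by
    rw [normSq_eq_norm_sq]
    have := norm_nonneg u
    nlinarith
  rw [normSq_apply] at h1
  simp
  nlinarith

lemma mob_norm {s : ℂ} (hs : 0 < s.re) : ‖mob s‖ < 1 := by
  have h0 := one_add_ne' hs
  unfold mob
  rw [norm_div, div_lt_one (norm_pos_iff.2 h0)]
  refine lt_of_pow_lt_pow_left₀ 2 (norm_nonneg _) ?_
  rw [← normSq_eq_norm_sq, ← normSq_eq_norm_sq, normSq_apply, normSq_apply]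
  simp
  nlinarith

lemma mob_inj {u v : ℂ} (hu : 1 + u ≠ 0) (hv : 1 + v ≠ 0) (h : mob u = mob v) : u = v := by
  unfold mob at h
  rw [div_eq_div_iff hu hv] at h
  linear_combination (-1 / 2 : ℂ) * h

/-- the radicand -/
noncomputable def rad (a : ℝ) (M : ℂ) : ℂ := 1 - a + a * M ^ 2

lemma rad_mem {a : ℝ} (ha : 0 < a) (ha1 : a < 1) {M : ℂ} (hM : 0 < M.re) :
    rad a M ∈ slitPlane := by
  unfold rad
  rw [mem_slitPlane_iff]
  by_cases h : M.im = 0
  · left
    simp [sq, h]
    have := mul_pos hM hM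
    nlinarith [mul_pos ha this]
  · right
    simp only [sq, add_im, sub_im, one_im, ofReal_im, sub_zero, mul_im, ofReal_re, zero_mul,
      add_zero, zero_add]
    have h1 : M.re * M.im + M.im * M.re = 2 * (M.re * M.im) := by ring
    rw [h1]
    have : M.re * M.im ≠ 0 := mul_ne_zero hM.ne' h
    have h2 : a ≠ 0 := ha.ne'
    simp only [ne_eq, mul_eq_zero, not_or]
    exact ⟨h2, two_ne_zero, hM.ne', h⟩

/-- The radial slit map with parameters `k`, `a`. -/
noncomputable def step (k : ℂ) (a : ℝ) (q : ℂ) : ℂ := conj k * mob (sr (rad a (mob (k * q))))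

section
variable {k : ℂ} {a : ℝ} (hk : ‖k‖ = 1) (ha : 0 < a) (ha1 : a < 1)
include hk ha ha1

lemma kq_norm {q : ℂ} (hq : ‖q‖ < 1) : ‖k * q‖ < 1 := by rw [norm_mul, hk, one_mul]; exact hq

lemma k_conj : k * conj k = 1 := by
  rw [mul_conj, normSq_eq_norm_sq, hk]
  simp

lemma s_re {q : ℂ} (hq : ‖q‖ < 1) : 0 < (sr (rad a (mob (k * q)))).re :=
  sr_re (rad_mem ha ha1 (mob_re (kq_norm hk ha ha1 hq)))

lemma step_norm {q : ℂ} (hq : ‖q‖ < 1) : ‖step k a q‖ < 1 := by
  unfold step
  rw [norm_mul, RCLike.norm_conj, hk, one_mul]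
  exact mob_norm (s_re hk ha ha1 hq)

lemma step_zero : step k a 0 = 0 := by
  have h : rad a (mob (k * 0)) = 1 := by simp [rad, mob]
  unfold step
  rw [h, sr_one]
  simp [mob]

lemma step_inj {q q' : ℂ} (hq : ‖q‖ < 1) (hq' : ‖q'‖ < 1) (h : step k a q = step k a q') :
    q = q' := by
  have hk0 : k ≠ 0 := by
    intro h0
    rw [h0, norm_zero] at hk
    exact zero_ne_one hk
  unfold step at h
  have hc : conj k ≠ 0 := (map_ne_zero _).2 hk0
  have h1 := mul_left_cancel₀ hc h
  have h2 := mob_inj (one_add_ne' (s_re hk ha ha1 hq)) (one_add_ne' (s_re hk ha ha1 hq')) h1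
  have hm := mob_re (kq_norm hk ha ha1 hq)
  have hm' := mob_re (kq_norm hk ha ha1 hq')
  have h3 : rad a (mob (k * q)) = rad a (mob (k * q')) := by
    rw [← sr_sq (slitPlane_ne_zero (rad_mem ha ha1 hm)),
      ← sr_sq (slitPlane_ne_zero (rad_mem ha ha1 hm')), h2]
  have h4 : mob (k * q) ^ 2 = mob (k * q') ^ 2 := by
    unfold rad at h3
    have ha' : (a : ℂ) ≠ 0 := by exact_mod_cast ha.ne'
    exact mul_left_cancel₀ ha' (by linear_combination h3)
  have h5 : mob (k * q) = mob (k * q') := by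
    rcases sq_eq_sq_iff_eq_or_eq_neg.1 h4 with h | h
    · exact h
    · exfalso
      rw [h, neg_re] at hm
      linarith
  have h6 := mob_inj (one_add_ne (kq_norm hk ha ha1 hq)) (one_add_ne (kq_norm hk ha ha1 hq')) h5
  exact mul_left_cancel₀ hk0 h6

lemma step_diff {q : ℂ} (hq : ‖q‖ < 1) : DifferentiableAt ℂ (step k a) q := by
  have h0 := one_add_ne (kq_norm hk ha ha1 hq)
  have hm := rad_mem ha ha1 (mob_re (kq_norm hk ha ha1 hq))
  have h1 : DifferentiableAt ℂ (fun q => mob (k * q)) q := by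
    unfold mob
    exact DifferentiableAt.div (by fun_prop) (by fun_prop) h0
  have h2 : DifferentiableAt ℂ (fun q => rad a (mob (k * q))) q := by
    unfold rad
    exact (h1.pow 2).const_mul _ |>.const_add _
  have h3 : DifferentiableAt ℂ (fun q => sr (rad a (mob (k * q)))) q :=
    DifferentiableAt.comp (g := sr) q (sr_diff hm) h2
  have h4 : DifferentiableAt ℂ (fun q => mob (sr (rad a (mob (k * q))))) q := by
    unfold mob at *
    exact DifferentiableAt.div (h3.const_sub _) (h3.const_add _) (one_add_ne' (s_re hk ha ha1 hq))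
  exact h4.const_mul _

/-- the equation of the slit map -/
lemma step_eq {q : ℂ} (hq : ‖q‖ < 1) :
    step k a q * (1 + k * q) ^ 2 = a * q * (1 + k * step k a q) ^ 2 := by
  have hk0 : k ≠ 0 := by
    intro h0
    rw [h0, norm_zero] at hk
    exact zero_ne_one hk
  have hc := k_conj hk ha ha1
  have h0 := one_add_ne (kq_norm hk ha ha1 hq)
  have hs := one_add_ne' (s_re hk ha ha1 hq)
  have hsq := sr_sq (slitPlane_ne_zero (rad_mem ha ha1 (mob_re (kq_norm hk ha ha1 hq))))
  set s := sr (rad a (mob (k * q))) with hsdef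
  have hp : k * step k a q = (1 - s) / (1 + s) := by
    unfold step
    rw [← mul_assoc, hc, one_mul]
    rfl
  have hs2 : s ^ 2 * (1 + k * q) ^ 2 = (1 - a) * (1 + k * q) ^ 2 + a * (1 - k * q) ^ 2 := by
    rw [hsq]
    unfold rad mob
    field_simp
  apply mul_left_cancel₀ hk0
  have e1 : k * (step k a q * (1 + k * q) ^ 2) = (1 - s) / (1 + s) * (1 + k * q) ^ 2 := by
    rw [← mul_assoc, hp]
  have e2 : k * (a * q * (1 + k * step k a q) ^ 2) =
      a * (k * q) * (1 + (1 - s) / (1 + s)) ^ 2 := by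
    rw [hp]; ring
  rw [e1, e2]
  have e3 : 1 + (1 - s) / (1 + s) = 2 / (1 + s) := by field_simp; ring
  rw [e3]
  field_simp
  linear_combination (-1 : ℂ) * hs2

end

end Pool.Agent.J4.H73.SG
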