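import Mathlib
import Pool.Agent.J4.H73.SG.Step

set_option autoImplicit false
set_option linter.unusedSectionVars false

open Complex Metric Set Filter Topology Asymptotics
open scoped ComplexConjugate

namespace Pool.Agent.J4.H73.SG

/-- Univalent self-maps of the unit disc with fixed point `0` and multiplier `X` -/
structure Good (X : ℝ) (q : ℂ → ℂ) : Prop where
  diff : DifferentiableOn ℂ q (ball 0 1)
  maps : ∀ w, ‖w‖ < 1 → ‖q w‖ < 1
  inj : ∀ w w', ‖w‖ < 1 → ‖w'‖ < 1 → q w = q w' → w = w'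
  zero : q 0 = 0
  lim : Tendsto (fun w => X * w / q w) (𝓝[≠] 0) (𝓝 1)

lemma ev_ball : ∀ᶠ w : ℂ in 𝓝[≠] 0, w ≠ 0 ∧ ‖w‖ < 1 := by
  have h1 : ∀ᶠ w : ℂ in 𝓝[≠] 0, w ∈ ball (0 : ℂ) 1 :=
    mem_nhdsWithin_of_mem_nhds (ball_mem_nhds 0 one_pos)
  filter_upwards [h1, self_mem_nhdsWithin] with w hw hw'
  exact ⟨hw', by simpa using hw⟩

lemma Good.ne {X : ℝ} {q : ℂ → ℂ} (h : Good X q) {w : ℂ} (hw : ‖w‖ < 1) (h0 : w ≠ 0) : q w ≠ 0 := by
  intro h1
  apply h0
  refine h.inj w 0 hw (by simp) ?_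
  rw [h1, h.zero]

lemma Good.tend {X : ℝ} {q : ℂ → ℂ} (h : Good X q) : Tendsto q (𝓝[≠] 0) (𝓝 0) := by
  have h1 : ContinuousAt q 0 :=
    (h.diff.differentiableAt (ball_mem_nhds 0 one_pos)).continuousAt
  have h2 : Tendsto q (𝓝 0) (𝓝 0) := by
    have := h1.tendsto
    rwa [h.zero] at this
  exact h2.mono_left nhdsWithin_le_nhds

theorem good_id : Good 1 (fun w => w) where
  diff := differentiableOn_id
  maps := fun w hw => hw
  inj := fun w w' _ _ h => h
  zero := rfl
  lim := by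
    refine tendsto_const_nhds.congr' ?_
    filter_upwards [ev_ball] with w hw
    rw [ofReal_one, one_mul, div_self hw.1]

theorem good_step {X : ℝ} {q : ℂ → ℂ} (h : Good X q) {k : ℂ} (hk : ‖k‖ = 1) {a : ℝ} (ha : 0 < a)
    (ha1 : a < 1) : Good (a * X) (fun w => step k a (q w)) where
  diff := by
    intro w hw
    have hw' : ‖w‖ < 1 := by simpa using hw
    exact (DifferentiableAt.comp_differentiableWithinAt (g := step k a) w
      (step_diff hk ha ha1 (h.maps w hw')) (h.diff w hw))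
  maps := fun w hw => step_norm hk ha ha1 (h.maps w hw)
  inj := fun w w' hw hw' e =>
    h.inj w w' hw hw' (step_inj hk ha ha1 (h.maps w hw) (h.maps w' hw') e)
  zero := by
    rw [h.zero]
    exact step_zero hk ha ha1
  lim := by
    have hp : Tendsto (fun w => step k a (q w)) (𝓝[≠] 0) (𝓝 0) := by
      have h1 : ContinuousAt (step k a) 0 :=
        (step_diff hk ha ha1 (by simp)).continuousAt
      have h2 : Tendsto (step k a) (𝓝 0) (𝓝 0) := by
        have := h1.tendsto
        rwa [step_zero hk ha ha1] at this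
      exact h2.comp h.tend
    have h3 : Tendsto (fun w => (1 + k * q w) ^ 2 / (1 + k * step k a (q w)) ^ 2 *
        (X * w / q w)) (𝓝[≠] 0) (𝓝 ((1 + k * 0) ^ 2 / (1 + k * 0) ^ 2 * 1)) := by
      refine Tendsto.mul (Tendsto.div ?_ ?_ (by simp)) h.lim
      · exact ((h.tend.const_mul k).const_add 1).pow 2
      · exact ((hp.const_mul k).const_add 1).pow 2
    have h4 : (1 + k * 0) ^ 2 / (1 + k * 0) ^ 2 * 1 = (1 : ℂ) := by simp
    rw [h4] at h3
    refine h3.congr' ?_
    filter_upwards [ev_ball] with w hw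
    have e := step_eq hk ha ha1 (h.maps w hw.2)
    have n1 : q w ≠ 0 := h.ne hw.2 hw.1
    have n2 : step k a (q w) ≠ 0 := by
      intro h0
      apply n1
      refine step_inj hk ha ha1 (h.maps w hw.2) (by simp) ?_
      rw [h0, step_zero hk ha ha1]
    have n3 : 1 + k * step k a (q w) ≠ 0 :=
      one_add_ne (kq_norm hk ha ha1 (step_norm hk ha ha1 (h.maps w hw.2)))
    have n4 : (a : ℂ) ≠ 0 := by exact_mod_cast ha.ne'
    rw [div_mul_div_comm, div_eq_div_iff (mul_ne_zero (pow_ne_zero _ n3) n1) n2]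
    push_cast
    linear_combination (X * w : ℂ) * e

/-- the normalised functions `X w / q w` -/
noncomputable def nu (X : ℝ) (q : ℂ → ℂ) (w : ℂ) : ℂ := X * w / q w

/-- the relation between `nu` of two consecutive functions -/
theorem rel {X : ℝ} (hX : 0 < X) {q : ℂ → ℂ} (h : Good X q) {k : ℂ} (hk : ‖k‖ = 1) {a : ℝ}
    (ha : 0 < a) (ha1 : a < 1) {w : ℂ} (hw : ‖w‖ < 1) (hw0 : w ≠ 0) :
    nu (a * X) (fun w => step k a (q w)) w ^ 2 * nu X q w +
        k ^ 2 * (a * X) ^ 2 * w ^ 2 * nu X q w =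
      nu X q w ^ 2 * nu (a * X) (fun w => step k a (q w)) w +
        k ^ 2 * X ^ 2 * w ^ 2 * nu (a * X) (fun w => step k a (q w)) w +
        2 * k * (X - a * X) * w * nu X q w * nu (a * X) (fun w => step k a (q w)) w := by
  have e := step_eq hk ha ha1 (h.maps w hw)
  have n1 : q w ≠ 0 := h.ne hw hw0
  have n2 : step k a (q w) ≠ 0 := by
    intro h0
    apply n1
    refine step_inj hk ha ha1 (h.maps w hw) (by simp) ?_
    rw [h0, step_zero hk ha ha1]
  unfold nu
  push_cast
  field_simp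
  linear_combination (-(a : ℂ) * X ^ 3) * e

end Pool.Agent.J4.H73.SG
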