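import Mathlib
import Pool.Agent.J4.H73.SG.Good
import Pool.Agent.J4.H73.SG.Expand

set_option autoImplicit false
set_option linter.unusedSectionVars false

open Complex Metric Set Filter Topology Asymptotics
open scoped ComplexConjugate

namespace Pool.Agent.J4.H73.SG

/-- the direction number 1 -/
noncomputable def k1 : ℂ := (1 + 0 * I)

/-- the direction number 2 -/
noncomputable def k2 : ℂ := ((-4 / 5) + (3 / 5) * I)

/-- the direction number 3 -/
noncomputable def k3 : ℂ := ((5 / 13) + (12 / 13) * I)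

/-- the direction number 4 -/
noncomputable def k4 : ℂ := ((5 / 13) + (-12 / 13) * I)

/-- the direction number 5 -/
noncomputable def k5 : ℂ := ((-4 / 5) + (-3 / 5) * I)

lemma k1_norm : ‖k1‖ = 1 := by
  have h : ‖k1‖ ^ 2 = 1 := by
    rw [← normSq_eq_norm_sq, normSq_apply, k1]
    simp
    try norm_num
  nlinarith [norm_nonneg k1]

lemma k2_norm : ‖k2‖ = 1 := by
  have h : ‖k2‖ ^ 2 = 1 := by
    rw [← normSq_eq_norm_sq, normSq_apply, k2]
    simp
    try norm_num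
  nlinarith [norm_nonneg k2]

lemma k3_norm : ‖k3‖ = 1 := by
  have h : ‖k3‖ ^ 2 = 1 := by
    rw [← normSq_eq_norm_sq, normSq_apply, k3]
    simp
    try norm_num
  nlinarith [norm_nonneg k3]

lemma k4_norm : ‖k4‖ = 1 := by
  have h : ‖k4‖ ^ 2 = 1 := by
    rw [← normSq_eq_norm_sq, normSq_apply, k4]
    simp
    try norm_num
  nlinarith [norm_nonneg k4]

lemma k5_norm : ‖k5‖ = 1 := by
  have h : ‖k5‖ ^ 2 = 1 := by
    rw [← normSq_eq_norm_sq, normSq_apply, k5]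
    simp
    try norm_num
  nlinarith [norm_nonneg k5]

noncomputable def q0 : ℂ → ℂ := fun w => w
noncomputable def q1 : ℂ → ℂ := fun w => step k1 (12 / 13) (q0 w)
noncomputable def q2 : ℂ → ℂ := fun w => step k2 (65 / 72) (q1 w)
noncomputable def q3 : ℂ → ℂ := fun w => step k3 (6 / 7) (q2 w)
noncomputable def q4 : ℂ → ℂ := fun w => step k4 (21 / 25) (q3 w)

lemma g0 : Good 1 q0 := good_id

lemma g1 : Good (12 / 13) q1 := by
  have h := good_step g0 k1_norm (a := (12 / 13)) (by norm_num) (by norm_num)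
  have e : ((12 / 13) * 1 : ℝ) = (12 / 13) := by norm_num
  rw [e] at h
  exact h

lemma g2 : Good (5 / 6) q2 := by
  have h := good_step g1 k2_norm (a := (65 / 72)) (by norm_num) (by norm_num)
  have e : ((65 / 72) * (12 / 13) : ℝ) = (5 / 6) := by norm_num
  rw [e] at h
  exact h

lemma g3 : Good (5 / 7) q3 := by
  have h := good_step g2 k3_norm (a := (6 / 7)) (by norm_num) (by norm_num)
  have e : ((6 / 7) * (5 / 6) : ℝ) = (5 / 7) := by norm_num
  rw [e] at h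
  exact h

lemma g4 : Good (3 / 5) q4 := by
  have h := good_step g3 k4_norm (a := (21 / 25)) (by norm_num) (by norm_num)
  have e : ((21 / 25) * (5 / 7) : ℝ) = (3 / 5) := by norm_num
  rw [e] at h
  exact h

lemma r1 : ∀ᶠ w in 𝓝[≠] 0, nu (12 / 13) q1 w ^ 2 * nu 1 q0 w +
      k1 ^ 2 * (12 / 13) ^ 2 * w ^ 2 * nu 1 q0 w =
    nu 1 q0 w ^ 2 * nu (12 / 13) q1 w +
      k1 ^ 2 * 1 ^ 2 * w ^ 2 * nu (12 / 13) q1 w +
      2 * k1 * (1 - (12 / 13)) * w * nu 1 q0 w * nu (12 / 13) q1 w := by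
  filter_upwards [ev_ball] with w hw
  have h := rel (X := 1) (by norm_num) g0 k1_norm (a := (12 / 13)) (by norm_num)
    (by norm_num) hw.2 hw.1
  have e : ((12 / 13) * 1 : ℝ) = (12 / 13) := by norm_num
  have e' : (((((12 / 13) : ℝ) : ℂ)) * (((1 : ℝ) : ℂ))) = (12 / 13) := by
    rw [← ofReal_mul, e]; push_cast; rfl
  rw [e, e'] at h
  push_cast at h
  exact h

lemma r2 : ∀ᶠ w in 𝓝[≠] 0, nu (5 / 6) q2 w ^ 2 * nu (12 / 13) q1 w +
      k2 ^ 2 * (5 / 6) ^ 2 * w ^ 2 * nu (12 / 13) q1 w =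
    nu (12 / 13) q1 w ^ 2 * nu (5 / 6) q2 w +
      k2 ^ 2 * (12 / 13) ^ 2 * w ^ 2 * nu (5 / 6) q2 w +
      2 * k2 * ((12 / 13) - (5 / 6)) * w * nu (12 / 13) q1 w * nu (5 / 6) q2 w := by
  filter_upwards [ev_ball] with w hw
  have h := rel (X := (12 / 13)) (by norm_num) g1 k2_norm (a := (65 / 72)) (by norm_num)
    (by norm_num) hw.2 hw.1
  have e : ((65 / 72) * (12 / 13) : ℝ) = (5 / 6) := by norm_num
  have e' : (((((65 / 72) : ℝ) : ℂ)) * ((((12 / 13) : ℝ) : ℂ))) = (5 / 6) := by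
    rw [← ofReal_mul, e]; push_cast; rfl
  rw [e, e'] at h
  push_cast at h
  exact h

lemma r3 : ∀ᶠ w in 𝓝[≠] 0, nu (5 / 7) q3 w ^ 2 * nu (5 / 6) q2 w +
      k3 ^ 2 * (5 / 7) ^ 2 * w ^ 2 * nu (5 / 6) q2 w =
    nu (5 / 6) q2 w ^ 2 * nu (5 / 7) q3 w +
      k3 ^ 2 * (5 / 6) ^ 2 * w ^ 2 * nu (5 / 7) q3 w +
      2 * k3 * ((5 / 6) - (5 / 7)) * w * nu (5 / 6) q2 w * nu (5 / 7) q3 w := by
  filter_upwards [ev_ball] with w hw
  have h := rel (X := (5 / 6)) (by norm_num) g2 k3_norm (a := (6 / 7)) (by norm_num)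
    (by norm_num) hw.2 hw.1
  have e : ((6 / 7) * (5 / 6) : ℝ) = (5 / 7) := by norm_num
  have e' : (((((6 / 7) : ℝ) : ℂ)) * ((((5 / 6) : ℝ) : ℂ))) = (5 / 7) := by
    rw [← ofReal_mul, e]; push_cast; rfl
  rw [e, e'] at h
  push_cast at h
  exact h

lemma r4 : ∀ᶠ w in 𝓝[≠] 0, nu (3 / 5) q4 w ^ 2 * nu (5 / 7) q3 w +
      k4 ^ 2 * (3 / 5) ^ 2 * w ^ 2 * nu (5 / 7) q3 w =
    nu (5 / 7) q3 w ^ 2 * nu (3 / 5) q4 w +
      k4 ^ 2 * (5 / 7) ^ 2 * w ^ 2 * nu (3 / 5) q4 w +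
      2 * k4 * ((5 / 7) - (3 / 5)) * w * nu (5 / 7) q3 w * nu (3 / 5) q4 w := by
  filter_upwards [ev_ball] with w hw
  have h := rel (X := (5 / 7)) (by norm_num) g3 k4_norm (a := (21 / 25)) (by norm_num)
    (by norm_num) hw.2 hw.1
  have e : ((21 / 25) * (5 / 7) : ℝ) = (3 / 5) := by norm_num
  have e' : (((((21 / 25) : ℝ) : ℂ)) * ((((5 / 7) : ℝ) : ℂ))) = (3 / 5) := by
    rw [← ofReal_mul, e]; push_cast; rfl
  rw [e, e'] at h
  push_cast at h
  exact h

lemma x0 : Ex (nu 1 q0) (0 + 0 * I) (0 + 0 * I) (0 + 0 * I) (0 + 0 * I) (0 + 0 * I) := by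
  unfold Ex
  have h : ∀ᶠ w : ℂ in 𝓝[≠] 0, (0 : ℂ) = nu 1 q0 w - pol (0 + 0 * I) (0 + 0 * I) (0 + 0 * I) (0 + 0 * I) (0 + 0 * I) w := by
    filter_upwards [ev_ball] with w hw
    unfold nu q0 pol
    rw [ofReal_one, one_mul, div_self hw.1]
    ring
  exact (isBigO_zero _ _).congr' h (Eventually.of_forall fun _ => rfl)

lemma x1 : Ex (nu (12 / 13) q1) ((2 / 13) + 0 * I) ((25 / 169) + 0 * I) ((288 / 2197) + 0 * I) ((3024 / 28561) + 0 * I) ((28224 / 371293) + 0 * I) := by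
  refine stage g0.lim g1.lim r1 x0 ?_ ?_ ?_ ?_ ?_ <;>
    (unfold k1; apply Complex.ext <;> simp [pow_succ] <;> norm_num)

lemma x2 : Ex (nu (5 / 6) q2) ((2 / 195) + (7 / 65) * I) ((29213 / 152100) + (-1918 / 12675) * I) ((498791 / 2965950) + (92239 / 659100) * I) ((12455023 / 925376400) + (-1232182 / 19278675) * I) ((13284383287 / 90224199000) + (299981969 / 60149466000) * I) := by
  refine stage g1.lim g2.lim r2 x1 ?_ ?_ ?_ ?_ ?_ <;>
    (unfold k2; apply Complex.ext <;> simp [pow_succ] <;> norm_num)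

lemma x3 : Ex (nu (5 / 7) q3) ((139 / 1365) + (149 / 455) * I) ((3687 / 59150) + (-4244 / 207025) * I) ((4016816 / 56517825) + (12071551 / 113035650) * I) ((1442313211 / 123434929800) + (-331427692 / 2204195175) * I) ((412343242237 / 1719272236500) + (-531122877001 / 24069811311000) * I) := by
  refine stage g2.lim g3.lim r3 x2 ?_ ?_ ?_ ?_ ?_ <;>
    (unfold k3; apply Complex.ext <;> simp [pow_succ] <;> norm_num)

lemma x4 : Ex (nu (3 / 5) q4) ((37 / 195) + (53 / 455) * I) ((-367 / 8450) + (-26324 / 207025) * I) ((-2760192 / 94196375) + (103598123 / 565178250) * I) ((5804684773 / 79124955000) + (-270174748 / 4238836875) * I) ((4352458970471 / 14327268637500) + (-1299695344681 / 24069811311000) * I) := by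
  refine stage g3.lim g4.lim r4 x3 ?_ ?_ ?_ ?_ ?_ <;>
    (unfold k4; apply Complex.ext <;> simp [pow_succ] <;> norm_num)

end Pool.Agent.J4.H73.SG
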