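import Mathlib
import Pool.Agent.J4.H73.SG.Num

set_option autoImplicit false
set_option linter.unusedSectionVars false

open Complex Metric Set Filter Topology Asymptotics
open scoped ComplexConjugate

namespace Pool.Agent.J4.H73.SG

/-- the remainder of a Taylor series -/
theorem tail {c : ℕ → ℂ} {h : ℂ → ℂ}
    (hs : ∀ w : ℂ, ‖w‖ < 1 → HasSum (fun n => c n * w ^ n) (h w)) (N : ℕ) :
    (fun w => h w - ∑ j ∈ Finset.range N, c j * w ^ j) =O[𝓝[≠] 0] (fun w : ℂ => w ^ N) := by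
  have hsum : Summable fun n => ‖c n * (1 / 2 : ℂ) ^ n‖ :=
    (hs (1 / 2) (by norm_num)).summable.norm
  have hsum' : Summable fun n => ‖c (n + N) * (1 / 2 : ℂ) ^ (n + N)‖ :=
    (summable_nat_add_iff (f := fun n => ‖c n * (1 / 2 : ℂ) ^ n‖) N).2 hsum
  refine IsBigO.of_bound (2 ^ N * ∑' n, ‖c (n + N) * (1 / 2 : ℂ) ^ (n + N)‖) ?_
  have h1 : ∀ᶠ w : ℂ in 𝓝[≠] 0, w ∈ ball (0 : ℂ) (1 / 2) :=
    mem_nhdsWithin_of_mem_nhds (ball_mem_nhds 0 (by norm_num))
  filter_upwards [h1] with w hw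
  have hw' : ‖w‖ < 1 / 2 := by simpa using hw
  have h2 := (hasSum_nat_add_iff' N).2 (hs w (by linarith))
  have h3 : ∀ n, ‖c (n + N) * w ^ (n + N)‖ ≤
      2 ^ N * ‖w ^ N‖ * ‖c (n + N) * (1 / 2 : ℂ) ^ (n + N)‖ := by
    intro n
    rw [norm_mul, norm_mul, norm_pow, norm_pow, norm_pow, pow_add, pow_add]
    have h4 : ‖(1 / 2 : ℂ)‖ = 1 / 2 := by norm_num
    rw [h4]
    have h5 : ‖w‖ ^ n ≤ (1 / 2) ^ n := pow_le_pow_left₀ (norm_nonneg _) hw'.le n
    have h6 : (2 : ℝ) ^ N * (1 / 2) ^ N = 1 := by rw [← mul_pow]; norm_num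
    calc ‖c (n + N)‖ * (‖w‖ ^ n * ‖w‖ ^ N) ≤ ‖c (n + N)‖ * ((1 / 2) ^ n * ‖w‖ ^ N) := by gcongr
      _ = 2 ^ N * (1 / 2) ^ N * (‖c (n + N)‖ * ((1 / 2) ^ n * ‖w‖ ^ N)) := by rw [h6, one_mul]
      _ = _ := by ring
  have h4 := h2.norm_le_of_bounded (hsum'.hasSum.mul_left _) h3
  refine h4.trans (le_of_eq ?_)
  ring

/-- the function `w f(1/w)` -/
noncomputable def hf (w : ℂ) : ℂ := (3 / 5) * (1 + k5 * q4 w) ^ 2 / dslope q4 0 w

lemma dsl {w : ℂ} (hw : w ≠ 0) : dslope q4 0 w = q4 w / w := by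
  rw [dslope_of_ne _ hw, slope_def_field, g4.zero, sub_zero, sub_zero]

lemma deriv_q4 : deriv q4 0 = 3 / 5 := by
  have hd : HasDerivAt q4 (deriv q4 0) 0 :=
    (g4.diff.differentiableAt (ball_mem_nhds 0 one_pos)).hasDerivAt
  have h1 := hasDerivAt_iff_tendsto_slope.1 hd
  have h2 : Tendsto (fun w => (3 / 5 : ℂ) * (nu (3 / 5) q4 w)⁻¹) (𝓝[≠] 0) (𝓝 (3 / 5 * 1⁻¹)) := by
    refine (g4.lim.inv₀ one_ne_zero).const_mul _ |>.congr' ?_
    exact Eventually.of_forall fun w => rfl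
  have h3 : Tendsto (slope q4 0) (𝓝[≠] 0) (𝓝 (3 / 5 * 1⁻¹)) := by
    refine h2.congr' ?_
    filter_upwards [ev_ball] with w hw
    rw [slope_def_field, g4.zero, sub_zero, sub_zero]
    unfold nu
    have := g4.ne hw.2 hw.1
    have hw0 := hw.1
    push_cast
    field_simp
  rw [tendsto_nhds_unique h1 h3]
  norm_num

lemma dsl_ne {w : ℂ} (hw : ‖w‖ < 1) : dslope q4 0 w ≠ 0 := by
  by_cases h : w = 0
  · subst h
    rw [dslope_same, deriv_q4]
    norm_num
  · rw [dsl h]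
    exact div_ne_zero (g4.ne hw h) h

lemma hf_diff : DifferentiableOn ℂ hf (ball 0 1) := by
  unfold hf
  have h1 : DifferentiableOn ℂ (dslope q4 0) (ball 0 1) :=
    (differentiableOn_dslope (ball_mem_nhds 0 one_pos)).2 g4.diff
  refine DifferentiableOn.div ?_ h1 fun w hw => dsl_ne (by simpa using hw)
  exact (((g4.diff.const_mul _).const_add _).pow 2).const_mul _

lemma hf_zero : hf 0 = 1 := by
  unfold hf
  rw [dslope_same, deriv_q4, g4.zero]
  norm_num

lemma hf_tend : Tendsto hf (𝓝[≠] 0) (𝓝 1) := by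
  have h1 : ContinuousAt hf 0 :=
    (hf_diff.differentiableAt (ball_mem_nhds 0 one_pos)).continuousAt
  have h2 : Tendsto hf (𝓝 0) (𝓝 1) := by
    have := h1.tendsto
    rwa [hf_zero] at this
  exact h2.mono_left nhdsWithin_le_nhds

lemma hf_eq {w : ℂ} (hw : w ≠ 0) (hq : q4 w ≠ 0) :
    hf w = nu (3 / 5) q4 w * (1 + k5 * q4 w) ^ 2 := by
  unfold hf nu
  rw [dsl hw]
  push_cast
  field_simp

lemma r5 : ∀ᶠ w in 𝓝[≠] 0, hf w ^ 2 * nu (3 / 5) q4 w +
      k5 ^ 2 * 0 ^ 2 * w ^ 2 * nu (3 / 5) q4 w =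
    nu (3 / 5) q4 w ^ 2 * hf w + k5 ^ 2 * (3 / 5) ^ 2 * w ^ 2 * hf w +
      2 * k5 * ((3 / 5) - 0) * w * nu (3 / 5) q4 w * hf w := by
  filter_upwards [ev_ball] with w hw
  have hq := g4.ne hw.2 hw.1
  have hw0 := hw.1
  rw [hf_eq hw0 hq]
  unfold nu
  push_cast
  field_simp
  ring

lemma x5 : Ex hf ((-751 / 975) + (-1373 / 2275) * I) ((12119 / 211250) + (1130596 / 5175625) * I) ((-19244271 / 2354909375) + (1497506993 / 14129456250) * I) ((8220713573 / 395624775000) + (-502338962 / 21194184375) * I) ((141653969621267 / 358181715937500) + (-970158498021277 / 15043632069375000) * I) := by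
  refine stage g4.lim hf_tend r5 x4 ?_ ?_ ?_ ?_ ?_ <;>
    (unfold k5; apply Complex.ext <;> simp [pow_succ] <;> norm_num)

/-- the Taylor coefficients of `hf` -/
noncomputable def cf (n : ℕ) : ℂ := (n.factorial : ℂ)⁻¹ * iteratedDeriv n hf 0

lemma hf_sum {w : ℂ} (hw : ‖w‖ < 1) : HasSum (fun n => cf n * w ^ n) (hf w) := by
  have h := Complex.hasSum_taylorSeries_on_ball hf_diff (z := w) (by simpa using hw)
  have e : (fun n => cf n * w ^ n) =
      fun n : ℕ => (n.factorial : ℂ)⁻¹ • (w - 0) ^ n • iteratedDeriv n hf 0 := by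
    funext n
    rw [cf, sub_zero, smul_eq_mul, smul_eq_mul]
    ring
  rw [e]
  exact h

lemma cf_five : cf 5 = ((141653969621267 / 358181715937500) + (-970158498021277 / 15043632069375000) * I) := by
  set d : ℕ → ℂ := fun j => cf j - (if j = 0 then 1 else if j = 1 then ((-751 / 975) + (-1373 / 2275) * I) else
    if j = 2 then ((12119 / 211250) + (1130596 / 5175625) * I) else if j = 3 then ((-19244271 / 2354909375) + (1497506993 / 14129456250) * I) else
    if j = 4 then ((8220713573 / 395624775000) + (-502338962 / 21194184375) * I) else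
    ((141653969621267 / 358181715937500) + (-970158498021277 / 15043632069375000) * I)) with hd
  have h1 := tail (fun w hw => hf_sum hw) 6
  have h2 := x5
  unfold Ex at h2
  have h3 : (fun w : ℂ => ∑ j ∈ Finset.range 6, d j * w ^ j) =O[𝓝[≠] 0] (fun w : ℂ => w ^ 6) := by
    refine (h2.sub h1).congr_left fun w => ?_
    simp only [Finset.sum_range_succ, Finset.sum_range_zero, hd, pol]
    simp
    ring
  have h4 := exp_unique 6 d h3 5 (by norm_num)
  simp only [hd] at h4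
  norm_num at h4
  linear_combination h4

/-- the coefficient zero -/
lemma cf_zero : cf 0 = 1 := by
  unfold cf
  simp [hf_zero]

/-- the counterexample -/
noncomputable def ff (z : ℂ) : ℂ := (3 / 5) * (1 + k5 * q4 z⁻¹) ^ 2 / q4 z⁻¹

lemma inv_norm {z : ℂ} (hz : 1 < ‖z‖) : ‖z⁻¹‖ < 1 := by
  rw [norm_inv]
  exact inv_lt_one_of_one_lt₀ hz

lemma ff_eq {z : ℂ} (hz : 1 < ‖z‖) : ff z = z * hf z⁻¹ := by
  have hz0 : z ≠ 0 := by
    rintro rfl
    simp at hz
    linarith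
  have hq := g4.ne (inv_norm hz) (inv_ne_zero hz0)
  rw [hf_eq (inv_ne_zero hz0) hq]
  unfold ff nu
  push_cast
  field_simp

theorem ff_diff : DifferentiableOn ℂ ff {z | 1 < ‖z‖} := by
  intro z hz
  have hz' : 1 < ‖z‖ := hz
  have hz0 : z ≠ 0 := by
    rintro rfl
    simp at hz'
    linarith
  have h1 : DifferentiableAt ℂ (fun z : ℂ => z⁻¹) z := differentiableAt_inv hz0
  have h2 : DifferentiableAt ℂ q4 z⁻¹ :=
    g4.diff.differentiableAt (isOpen_ball.mem_nhds (by simpa using inv_norm hz'))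
  have h3 : DifferentiableAt ℂ (fun z : ℂ => q4 z⁻¹) z := DifferentiableAt.comp (g := q4) z h2 h1
  unfold ff
  refine (DifferentiableAt.div ?_ h3 (g4.ne (inv_norm hz') (inv_ne_zero hz0))).differentiableWithinAt
  exact (((h3.const_mul _).const_add _).pow 2).const_mul _

theorem ff_inj : InjOn ff {z | 1 < ‖z‖} := by
  intro z hz z' hz' h
  have hz1 : 1 < ‖z‖ := hz
  have hz1' : 1 < ‖z'‖ := hz'
  have hz0 : z ≠ 0 := by
    rintro rfl
    simp at hz1
    linarith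
  have hz0' : z' ≠ 0 := by
    rintro rfl
    simp at hz1'
    linarith
  have hq := g4.ne (inv_norm hz1) (inv_ne_zero hz0)
  have hq' := g4.ne (inv_norm hz1') (inv_ne_zero hz0')
  have hn := g4.maps _ (inv_norm hz1)
  have hn' := g4.maps _ (inv_norm hz1')
  unfold ff at h
  rw [div_eq_div_iff hq hq'] at h
  have e : (q4 z⁻¹ - q4 z'⁻¹) * (1 - k5 ^ 2 * (q4 z⁻¹ * q4 z'⁻¹)) = 0 := by
    linear_combination (-5 / 3 : ℂ) * h
  have hne : 1 - k5 ^ 2 * (q4 z⁻¹ * q4 z'⁻¹) ≠ 0 := by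
    intro h0
    have h1 : ‖k5 ^ 2 * (q4 z⁻¹ * q4 z'⁻¹)‖ = 1 := by
      rw [← sub_eq_zero.1 h0, norm_one]
    rw [norm_mul, norm_pow, k5_norm, one_pow, one_mul, norm_mul] at h1
    have := mul_lt_one_of_nonneg_of_lt_one_left (norm_nonneg _) hn hn'.le
    linarith
  have h2 : q4 z⁻¹ = q4 z'⁻¹ := by
    rcases mul_eq_zero.1 e with h3 | h3
    · exact sub_eq_zero.1 h3
    · exact absurd h3 hne
  have h3 := g4.inj _ _ (inv_norm hz1) (inv_norm hz1') h2
  exact inv_injective h3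

theorem ff_sum {z : ℂ} (hz : 1 < ‖z‖) : HasSum (fun m => cf (m + 1) * (z ^ m)⁻¹) (ff z - z) := by
  have hz0 : z ≠ 0 := by
    rintro rfl
    simp at hz
    linarith
  have h1 := hf_sum (inv_norm hz)
  have h2 := (hasSum_nat_add_iff' 1).2 h1
  have h3 := h2.mul_left z
  rw [Finset.sum_range_one, cf_zero, pow_zero, mul_one, mul_sub, ← ff_eq hz, mul_one] at h3
  have e : (fun m => cf (m + 1) * (z ^ m)⁻¹) = fun m : ℕ => z * (cf (m + 1) * z⁻¹ ^ (m + 1)) := by
    funext m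
    rw [inv_pow, pow_succ]
    field_simp
  rw [e]
  exact h3

end Pool.Agent.J4.H73.SG
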